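import Mathlib

namespace Pool.Agent.Results.MP_acd7a5_co.Full

open Finset

/-- The family generated by rooted sets `(stem, root)`: all `F` such that `stem ⊆ F` forces
`root ∈ F`. -/
def gen {V : Type} [Fintype V] [DecidableEq V] (𝒜 : Finset (Finset V × V)) : Finset (Finset V) :=
  univ.filter (fun F => ∀ p ∈ 𝒜, p.1 ⊆ F → p.2 ∈ F)

theorem mem_gen {V : Type} [Fintype V] [DecidableEq V] (𝒜 : Finset (Finset V × V)) (F : Finset V) :
    F ∈ gen 𝒜 ↔ ∀ p ∈ 𝒜, p.1 ⊆ F → p.2 ∈ F := by
  simp [gen]

theorem result (V : Type) [Fintype V] [DecidableEq V] (𝒜 : Finset (Finset V × V))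
    (hroot : ∀ p ∈ 𝒜, p.2 ∉ p.1)
    (huniq : ∀ p ∈ 𝒜, ∀ q ∈ 𝒜, p.2 = q.2 → p = q)
    (h0 : (∅ : Finset V) ∈ gen 𝒜) :
    2 * ∑ F ∈ gen 𝒜, F.card ≤ (gen 𝒜).card * Fintype.card V := by
  classical
  have hne : ∀ p ∈ 𝒜, p.1.Nonempty := by
    intro p hp
    rw [Finset.nonempty_iff_ne_empty]
    intro h
    have := (mem_gen 𝒜 ∅).mp h0 p hp (by rw [h])
    simp at this
  have hc : ∀ u : V, ∃ v : V, ∀ p ∈ 𝒜, p.2 = u → v ∈ p.1 := by
    intro u
    by_cases h : ∃ p ∈ 𝒜, p.2 = u
    · obtain ⟨p, hp, hu⟩ := h
      obtain ⟨v, hv⟩ := hne p hp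
      refine ⟨v, fun q hq hqu => ?_⟩
      rw [huniq q hq p hp (hqu.trans hu.symm)]
      exact hv
    · exact ⟨u, fun p hp hu => absurd ⟨p, hp, hu⟩ h⟩
  choose c hc using hc
  let viol : Finset V → V → Prop := fun G u => ∃ p ∈ 𝒜, p.2 = u ∧ p.1 ⊆ G ∧ u ∉ G
  have hv : ∀ G, G ∉ gen 𝒜 ↔ ∃ u, viol G u := by
    intro G
    rw [mem_gen]
    push Not
    constructor
    · rintro ⟨p, hp, h1, h2⟩
      exact ⟨p.2, p, hp, rfl, h1, h2⟩
    · rintro ⟨u, p, hp, rfl, h1, h2⟩
      exact ⟨p, hp, h1, h2⟩
  let In : Finset (Finset V × V) := univ.filter (fun x => x.1 ∈ gen 𝒜 ∧ x.2 ∈ x.1)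
  let Out : Finset (Finset V × V) := univ.filter (fun x => x.1 ∈ gen 𝒜 ∧ x.2 ∉ x.1)
  let P : Finset (Finset V × V) := univ.filter (fun x => viol x.1 x.2 ∧ ∀ w, viol x.1 w → w = x.2)
  let good : Finset V × V → Prop := fun x => insert x.2 x.1 ∈ gen 𝒜
  -- removing one point from a set creates at most the violation at that point
  have hrem : ∀ (G : Finset V) (v w : V), viol (G.erase v) w → w = v ∨ viol G w := by
    rintro G v w ⟨p, hp, h1, h2, h3⟩
    by_cases hw : w = v
    · exact Or.inl hw
    · refine Or.inr ⟨p, hp, h1, h2.trans (Finset.erase_subset _ _), fun h => h3 ?_⟩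
      exact Finset.mem_erase.mpr ⟨hw, h⟩
  have h1 : In.card ≤ (Out.filter good ∪ P.filter good).card := by
    apply Finset.card_le_card_of_injOn (fun x => (x.1.erase x.2, x.2))
    · rintro ⟨F, u⟩ hx
      simp only [In, Finset.coe_filter, Finset.mem_univ, true_and, Set.mem_setOf_eq] at hx
      obtain ⟨hF, hu⟩ := hx
      have hg : good (F.erase u, u) := by
        show insert u (F.erase u) ∈ gen 𝒜
        rw [Finset.insert_erase hu]; exact hF
      have hno : ∀ w, ¬ viol F w := fun w hw => (hv F).mpr ⟨w, hw⟩ hF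
      have hall : ∀ w, viol (F.erase u) w → w = u := fun w hw =>
        (hrem F u w hw).resolve_right (hno w)
      simp only [Finset.coe_union, Set.mem_union, Finset.mem_coe, Finset.mem_filter]
      by_cases h : F.erase u ∈ gen 𝒜
      · left
        refine ⟨?_, hg⟩
        simp only [Out, Finset.mem_filter, Finset.mem_univ, true_and]
        exact ⟨h, Finset.notMem_erase _ _⟩
      · right
        refine ⟨?_, hg⟩
        simp only [P, Finset.mem_filter, Finset.mem_univ, true_and]
        obtain ⟨w, hw⟩ := (hv _).mp h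
        have := hall w hw
        subst this
        exact ⟨hw, hall⟩
    · rintro ⟨F, u⟩ hx ⟨F', u'⟩ hy h
      simp only [In, Finset.coe_filter, Finset.mem_univ, true_and, Set.mem_setOf_eq] at hx hy
      simp only [Prod.mk.injEq] at h
      obtain ⟨ha, hb⟩ := h
      subst hb
      have : F = F' := by
        rw [← Finset.insert_erase hx.2, ← Finset.insert_erase hy.2, ha]
      rw [this]
  have h2 : P.card ≤ (Out.filter (fun x => ¬ good x) ∪ P.filter (fun x => ¬ good x)).card := by
    have hcm : ∀ G u, viol G u → c u ∈ G := by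
      rintro G u ⟨p, hp, e1, e2, -⟩
      exact e2 (hc u p hp e1)
    apply Finset.card_le_card_of_injOn (fun x => (x.1.erase (c x.2), c x.2))
    · rintro ⟨G, u⟩ hx
      simp only [P, Finset.coe_filter, Finset.mem_univ, true_and, Set.mem_setOf_eq] at hx
      obtain ⟨hG, hu⟩ := hx
      have hg : ¬ good (G.erase (c u), c u) := by
        show insert (c u) (G.erase (c u)) ∉ gen 𝒜
        rw [Finset.insert_erase (hcm G u hG)]
        exact (hv G).mpr ⟨u, hG⟩
      have hall : ∀ w, viol (G.erase (c u)) w → w = c u := by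
        intro w hw
        rcases hrem G (c u) w hw with h | h
        · exact h
        · have := hu w h
          subst this
          obtain ⟨p, hp, e1, e2, -⟩ := hw
          exact absurd (e2 (hc w p hp e1)) (Finset.notMem_erase _ _)
      simp only [Finset.coe_union, Set.mem_union, Finset.mem_coe, Finset.mem_filter]
      by_cases h : G.erase (c u) ∈ gen 𝒜
      · left
        refine ⟨?_, hg⟩
        simp only [Out, Finset.mem_filter, Finset.mem_univ, true_and]
        exact ⟨h, Finset.notMem_erase _ _⟩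
      · right
        refine ⟨?_, hg⟩
        simp only [P, Finset.mem_filter, Finset.mem_univ, true_and]
        obtain ⟨w, hw⟩ := (hv _).mp h
        have e := hall w hw
        rw [e] at hw
        exact ⟨hw, hall⟩
    · rintro ⟨G, u⟩ hx ⟨G', u'⟩ hy h
      simp only [P, Finset.coe_filter, Finset.mem_univ, true_and, Set.mem_setOf_eq] at hx hy
      simp only [Prod.mk.injEq] at h
      obtain ⟨ha, hb⟩ := h
      have e : G = G' := by
        rw [← Finset.insert_erase (hcm G u hx.1), ← Finset.insert_erase (hcm G' u' hy.1), ha, hb]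
      subst e
      rw [hy.2 u hx.1]
  have h3 := Finset.card_union_le (Out.filter good) (P.filter good)
  have h4 := Finset.card_union_le (Out.filter (fun x => ¬ good x)) (P.filter (fun x => ¬ good x))
  have h5 := Finset.card_filter_add_card_filter_not (s := Out) good
  have h6 := Finset.card_filter_add_card_filter_not (s := P) good
  have h7 : In.card ≤ Out.card := by omega
  have h8 : In.card = ∑ F ∈ gen 𝒜, F.card := by
    rw [Finset.card_eq_sum_card_fiberwise (f := fun x : Finset V × V => x.1) (t := gen 𝒜)]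
    · refine Finset.sum_congr rfl (fun F hF => ?_)
      apply Finset.card_nbij' (fun x => x.2) (fun u => (F, u))
      · rintro ⟨G, u⟩ hx
        simp only [In, Finset.coe_filter, Finset.mem_filter, Finset.mem_univ, true_and,
          Set.mem_setOf_eq] at hx
        obtain ⟨⟨-, hu⟩, rfl⟩ := hx
        exact hu
      · intro u hu
        simp only [In, Finset.coe_filter, Finset.mem_filter, Finset.mem_univ, true_and,
          Set.mem_setOf_eq, and_true]
        exact ⟨hF, hu⟩
      · rintro ⟨G, u⟩ hx
        simp only [In, Finset.coe_filter, Finset.mem_filter, Finset.mem_univ, true_and,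
          Set.mem_setOf_eq] at hx
        obtain ⟨-, rfl⟩ := hx
        rfl
      · intro u _
        rfl
    · rintro ⟨G, u⟩ hx
      simp only [In, Finset.coe_filter, Finset.mem_univ, true_and, Set.mem_setOf_eq] at hx
      exact hx.1
  have h9 : In.card + Out.card = (gen 𝒜).card * Fintype.card V := by
    have e1 : In = (gen 𝒜 ×ˢ (univ : Finset V)).filter (fun x => x.2 ∈ x.1) := by
      ext x; simp [In]
    have e2 : Out = (gen 𝒜 ×ˢ (univ : Finset V)).filter (fun x => ¬ x.2 ∈ x.1) := by
      ext x; simp [Out]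
    rw [e1, e2, Finset.card_filter_add_card_filter_not, Finset.card_product, Finset.card_univ]
  omega

end Pool.Agent.Results.MP_acd7a5_co.Full
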